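import Pool.Agent.helper3.T6R.Spec

set_option autoImplicit false

/-!
# Row REM: the two embeddings
-/

namespace Pool.Agent.T6R

open Finset NumberField Pool.Agent.helper3.FT Pool.Agent.helper47.RA Pool.Agent.T5 Pool.Agent.T6
open scoped nonZeroDivisors

section
variable {K : Type} [Field K] [NumberField K]

theorem REM_A (Q : QF K) {a : 𝓞 K} {x y : ℤ} (h : a = x + y * Q.ω) :
    emA Q a = (x : ℝ) + y * ((Q.t + √(Q.D : ℝ)) / 2) := by
  have h1 : a = ((Q.hspan a).choose : 𝓞 K) + Q.Y a * Q.ω := (Q.hspan a).choose_spec.choose_spec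
  have h2 : ((Q.hspan a).choose : 𝓞 K) + Q.Y a * Q.ω = (x : 𝓞 K) + y * Q.ω := h1.symm.trans h
  obtain ⟨h3, h4⟩ := Q.lin h2
  unfold emA
  rw [h3, h4]

theorem REM_B (Q : QF K) {a : 𝓞 K} {x y : ℤ} (h : a = x + y * Q.ω) :
    emB Q a = (x : ℝ) + y * ((Q.t - √(Q.D : ℝ)) / 2) := by
  have h1 : a = ((Q.hspan a).choose : 𝓞 K) + Q.Y a * Q.ω := (Q.hspan a).choose_spec.choose_spec
  have h2 : ((Q.hspan a).choose : 𝓞 K) + Q.Y a * Q.ω = (x : 𝓞 K) + y * Q.ω := h1.symm.trans h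
  obtain ⟨h3, h4⟩ := Q.lin h2
  unfold emB
  rw [h3, h4]

theorem REM_mulform (Q : QF K) {a b : 𝓞 K} {x y x' y' : ℤ} (h : a = x + y * Q.ω) (h' : b = x' + y' * Q.ω) :
    a * b = ((x * x' + Q.k * y * y' : ℤ) : 𝓞 K) + ((x * y' + x' * y + Q.t * y * y' : ℤ) : 𝓞 K) * Q.ω := by
  rw [h, h']
  push_cast
  linear_combination ((y : 𝓞 K) * y') * Q.hω

end

theorem REM : REM_stmt := by
  intro K _ _ Q hD
  have hDR : (0 : ℝ) < (Q.D : ℝ) := by exact_mod_cast hD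
  have hss : √(Q.D : ℝ) * √(Q.D : ℝ) = Q.D := Real.mul_self_sqrt hDR.le
  have hs0 : 0 ≤ √(Q.D : ℝ) := Real.sqrt_nonneg _
  have hs1 : 1 ≤ √(Q.D : ℝ) := by
    rw [show (1 : ℝ) = √1 by rw [Real.sqrt_one]]
    exact Real.sqrt_le_sqrt (by exact_mod_cast hD)
  have hkR : (Q.D : ℝ) = Q.t + 4 * Q.k := by exact_mod_cast Q.hk
  have htt : (Q.t : ℝ) ^ 2 = Q.t := by exact_mod_cast Q.t_sq
  generalize hsdef : √(Q.D : ℝ) = s at hss hs0 hs1
  have hA : ∀ {a : 𝓞 K} {x y : ℤ}, a = x + y * Q.ω → emA Q a = (x : ℝ) + y * ((Q.t + s) / 2) := by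
    intro a x y h
    rw [← hsdef]
    exact REM_A Q h
  have hB : ∀ {a : 𝓞 K} {x y : ℤ}, a = x + y * Q.ω → emB Q a = (x : ℝ) + y * ((Q.t - s) / 2) := by
    intro a x y h
    rw [← hsdef]
    exact REM_B Q h
  have hone : (1 : 𝓞 K) = ((1 : ℤ) : 𝓞 K) + ((0 : ℤ) : 𝓞 K) * Q.ω := by push_cast; ring
  have hzero : (0 : 𝓞 K) = ((0 : ℤ) : 𝓞 K) + ((0 : ℤ) : 𝓞 K) * Q.ω := by push_cast; ring
  have hmulA : ∀ a b : 𝓞 K, emA Q (a * b) = emA Q a * emA Q b := by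
    intro a b
    obtain ⟨x, hx⟩ := Q.exists_re a
    obtain ⟨x', hx'⟩ := Q.exists_re b
    generalize Q.Y a = y at hx
    generalize Q.Y b = y' at hx'
    rw [hA (REM_mulform Q hx hx'), hA hx, hA hx']
    push_cast
    linear_combination ((y : ℝ) * y' / 4) * htt + (-(y : ℝ) * y' / 4) * hss - ((y : ℝ) * y' / 4) * hkR
  have hmulB : ∀ a b : 𝓞 K, emB Q (a * b) = emB Q a * emB Q b := by
    intro a b
    obtain ⟨x, hx⟩ := Q.exists_re a
    obtain ⟨x', hx'⟩ := Q.exists_re b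
    generalize Q.Y a = y at hx
    generalize Q.Y b = y' at hx'
    rw [hB (REM_mulform Q hx hx'), hB hx, hB hx']
    push_cast
    linear_combination ((y : ℝ) * y' / 4) * htt + (-(y : ℝ) * y' / 4) * hss - ((y : ℝ) * y' / 4) * hkR
  have haddA : ∀ a b : 𝓞 K, emA Q (a + b) = emA Q a + emA Q b := by
    intro a b
    obtain ⟨x, hx⟩ := Q.exists_re a
    obtain ⟨x', hx'⟩ := Q.exists_re b
    generalize Q.Y a = y at hx
    generalize Q.Y b = y' at hx'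
    have h : a + b = ((x + x' : ℤ) : 𝓞 K) + ((y + y' : ℤ) : 𝓞 K) * Q.ω := by
      rw [hx, hx']; push_cast; ring
    rw [hA h, hA hx, hA hx']
    push_cast
    ring
  have haddB : ∀ a b : 𝓞 K, emB Q (a + b) = emB Q a + emB Q b := by
    intro a b
    obtain ⟨x, hx⟩ := Q.exists_re a
    obtain ⟨x', hx'⟩ := Q.exists_re b
    generalize Q.Y a = y at hx
    generalize Q.Y b = y' at hx'
    have h : a + b = ((x + x' : ℤ) : 𝓞 K) + ((y + y' : ℤ) : 𝓞 K) * Q.ω := by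
      rw [hx, hx']; push_cast; ring
    rw [hB h, hB hx, hB hx']
    push_cast
    ring
  have hcj : ∀ a : 𝓞 K, emA Q (Q.cj a) = emB Q a ∧ emB Q (Q.cj a) = emA Q a := by
    intro a
    obtain ⟨x, hx⟩ := Q.exists_re a
    generalize Q.Y a = y at hx
    have h : Q.cj a = ((x + y * Q.t : ℤ) : 𝓞 K) + ((-y : ℤ) : 𝓞 K) * Q.ω := by
      rw [hx, Q.cj_form]
    rw [hA h, hB h, hA hx, hB hx]
    push_cast
    constructor <;> ring
  have hint : ∀ c : ℤ, emA Q (c : 𝓞 K) = c := by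
    intro c
    have h : (c : 𝓞 K) = ((c : ℤ) : 𝓞 K) + ((0 : ℤ) : 𝓞 K) * Q.ω := by push_cast; ring
    rw [hA h]
    push_cast
    ring
  have hnorm : ∀ (a : 𝓞 K) (c : ℤ), a * Q.cj a = c → (c : ℝ) = emA Q a * emB Q a := by
    intro a c h
    rw [← hint c, ← h, hmulA, (hcj a).1]
  have habs : ∀ a : 𝓞 K, (Ideal.absNorm (Ideal.span {a}) : ℝ) = |emA Q a * emB Q a| := by
    intro a
    obtain ⟨N, h1, h2⟩ := Q.exists_norm a
    rw [← hnorm a N h1]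
    exact_mod_cast h2
  have hsub : ∀ a : 𝓞 K, emA Q a - emB Q a = Q.Y a * s := by
    intro a
    obtain ⟨x, hx⟩ := Q.exists_re a
    rw [hA hx, hB hx]
    ring
  refine ⟨⟨⟨⟨⟨emA Q, ?_⟩, hmulA⟩, ?_, haddA⟩, ⟨⟨⟨emB Q, ?_⟩, hmulB⟩, ?_, haddB⟩, fun _ => rfl, fun _ => rfl⟩,
    hcj, hsub, habs, hnorm, ?_, ?_⟩
  · rw [hA hone]; push_cast; ring
  · change emA Q 0 = 0
    rw [hA hzero]; push_cast; ring
  · rw [hB hone]; push_cast; ring
  · change emB Q 0 = 0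
    rw [hB hzero]; push_cast; ring
  · intro a ha
    have h1 : Ideal.absNorm (Ideal.span {a}) ≠ 0 := by
      rw [Ne, Ideal.absNorm_eq_zero_iff, Ideal.span_singleton_eq_bot]
      exact ha
    have h2 : (Ideal.absNorm (Ideal.span {a}) : ℝ) ≠ 0 := by exact_mod_cast h1
    rw [habs a, Ne, abs_eq_zero, mul_eq_zero, not_or] at h2
    exact h2
  · intro B
    have hfin : ((fun p : ℤ × ℤ => ((p.1 : 𝓞 K) + p.2 * Q.ω)) ''
        (Set.Icc (-⌈B + 2 * B * (1 + s)⌉) ⌈B + 2 * B * (1 + s)⌉ ×ˢ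
          Set.Icc (-⌈2 * B⌉) ⌈2 * B⌉)).Finite :=
      ((Set.finite_Icc _ _).prod (Set.finite_Icc _ _)).image _
    refine hfin.subset ?_
    rintro a ⟨h1, h2⟩
    obtain ⟨x, hx⟩ := Q.exists_re a
    have h3 := hsub a
    generalize Q.Y a = y at hx h3
    have hB0 : 0 ≤ B := (abs_nonneg _).trans h1
    have hy : |(y : ℝ)| ≤ 2 * B := by
      have h4 : |(y : ℝ)| * s ≤ 2 * B := by
        rw [← abs_of_nonneg hs0, ← abs_mul, ← h3]
        calc |emA Q a - emB Q a| ≤ |emA Q a| + |emB Q a| := abs_sub _ _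
          _ ≤ 2 * B := by linarith
      have h5 : |(y : ℝ)| * 1 ≤ |(y : ℝ)| * s := mul_le_mul_of_nonneg_left hs1 (abs_nonneg _)
      linarith
    have ht1 : |(Q.t : ℝ)| ≤ 1 := by
      rcases Q.ht with h | h <;> rw [h] <;> norm_num
    have hσ : |(Q.t + s) / 2| ≤ 1 + s := by
      rw [abs_div, abs_of_pos (by norm_num : (0 : ℝ) < 2)]
      have h6 : |(Q.t : ℝ) + s| ≤ 1 + s := (abs_add_le _ _).trans (by rw [abs_of_nonneg hs0]; linarith)
      linarith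
    have hxx : |(x : ℝ)| ≤ B + 2 * B * (1 + s) := by
      have h7 : (x : ℝ) = emA Q a - y * ((Q.t + s) / 2) := by
        rw [hA hx]
        ring
      rw [h7]
      calc |emA Q a - y * ((Q.t + s) / 2)| ≤ |emA Q a| + |y * ((Q.t + s) / 2)| := abs_sub _ _
        _ = |emA Q a| + |(y : ℝ)| * |(Q.t + s) / 2| := by rw [abs_mul]
        _ ≤ B + 2 * B * (1 + s) := by
          have h8 : |(y : ℝ)| * |(Q.t + s) / 2| ≤ 2 * B * (1 + s) :=
            mul_le_mul hy hσ (abs_nonneg _) (by linarith)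
          linarith
    have hle : ∀ (z : ℤ) (M : ℝ), |(z : ℝ)| ≤ M → z ∈ Set.Icc (-⌈M⌉) ⌈M⌉ := by
      intro z M hz
      obtain ⟨h9, h10⟩ := abs_le.1 hz
      constructor
      · have h11 : -z ≤ ⌈M⌉ := by
          have h12 : ((-z : ℤ) : ℝ) ≤ ⌈M⌉ := by
            push_cast
            exact (by linarith : -(z : ℝ) ≤ M).trans (Int.le_ceil _)
          exact_mod_cast h12
        linarith
      · have h12 : ((z : ℤ) : ℝ) ≤ ⌈M⌉ := h10.trans (Int.le_ceil _)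
        exact_mod_cast h12
    exact ⟨(x, y), ⟨hle x _ hxx, hle y _ hy⟩, hx.symm⟩

end Pool.Agent.T6R
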